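import Pool.Agent.Lib.MP_b0c2b5_co.C5.Main

/-!
All caterpillars satisfy the Gyarfas-Sumner conjecture for Hasse diagrams.
-/

set_option autoImplicit false

namespace Pool.Agent.Results.MP_b0c2b5_co.AllCaterpillars

open Pool.Agent.Lib.MP_b0c2b5_co.LS Pool.Agent.Lib.MP_b0c2b5_co.C5

universe u v

/-- `T` is a caterpillar: there is an induced path `sp 0 - ... - sp (s-1)` in `T`, and every other
vertex has exactly one neighbour, which lies on this path -/
def IsCaterpillar {W : Type v} (T : SimpleGraph W) : Prop :=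
  ∃ (s : ℕ) (sp : Fin s → W), Function.Injective sp ∧
    (∀ a b : Fin s, T.Adj (sp a) (sp b) ↔ (a : ℕ) + 1 = b ∨ (b : ℕ) + 1 = a) ∧
    ∀ w, w ∉ Set.range sp → ∃ a, ∀ u, T.Adj w u ↔ u = sp a

/-- a caterpillar embeds in a comb with at least as many spine vertices -/
lemma exists_cat {W : Type v} [Finite W] {T : SimpleGraph W} {s k : ℕ} (hsk : s ≤ k)
    {sp : Fin s → W} (hinj : Function.Injective sp)
    (hsp : ∀ a b : Fin s, T.Adj (sp a) (sp b) ↔ (a : ℕ) + 1 = b ∨ (b : ℕ) + 1 = a)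
    (hl : ∀ w, w ∉ Set.range sp → ∃ a, ∀ u, T.Adj w u ↔ u = sp a) :
    Nonempty (T ↪g cat k (Nat.card W)) := by
  classical
  have e : W ≃ Fin (Nat.card W) := Finite.equivFin W
  have h1 : ∀ w, ∃ y : Fin k ⊕ (Fin k × Fin (Nat.card W)),
      (∃ a : Fin s, w = sp a ∧ y = .inl (Fin.castLE hsk a)) ∨
      (w ∉ Set.range sp ∧ ∃ a : Fin s, (∀ u, T.Adj w u ↔ u = sp a) ∧
        y = .inr (Fin.castLE hsk a, e w)) := by
    intro w
    by_cases hw : w ∈ Set.range sp
    · obtain ⟨a, ha⟩ := hw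
      exact ⟨.inl (Fin.castLE hsk a), Or.inl ⟨a, ha.symm, rfl⟩⟩
    · obtain ⟨a, ha⟩ := hl w hw
      exact ⟨.inr (Fin.castLE hsk a, e w), Or.inr ⟨hw, a, ha, rfl⟩⟩
  choose f hf using h1
  have hci := Fin.castLE_injective hsk
  have hfi : Function.Injective f := by
    intro w u hwu
    rcases hf w with ⟨a, ha, ha2⟩ | ⟨hw, a, ha, ha2⟩ <;> rcases hf u with ⟨b, hb, hb2⟩ | ⟨hu, b, hb, hb2⟩
    · rw [ha2, hb2] at hwu
      have := hci (Sum.inl.inj hwu)
      rw [ha, hb, this]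
    · rw [ha2, hb2] at hwu
      exact absurd hwu (by simp)
    · rw [ha2, hb2] at hwu
      exact absurd hwu (by simp)
    · rw [ha2, hb2] at hwu
      have := Sum.inr.inj hwu
      exact e.injective (Prod.ext_iff.mp this).2
  refine ⟨⟨⟨f, hfi⟩, ?_⟩⟩
  intro w u
  change (cat k (Nat.card W)).Adj (f w) (f u) ↔ T.Adj w u
  rcases hf w with ⟨a, ha, ha2⟩ | ⟨hw, a, ha, ha2⟩ <;> rcases hf u with ⟨b, hb, hb2⟩ | ⟨hu, b, hb, hb2⟩
  · rw [ha2, hb2, ha, hb, hsp]
    rfl
  · rw [ha2, hb2, ha]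
    rw [T.adj_comm, hb]
    exact ⟨fun h => by rw [hci (show Fin.castLE hsk a = Fin.castLE hsk b from h)],
      fun h => congrArg (Fin.castLE hsk) (hinj h)⟩
  · rw [ha2, hb2, hb]
    rw [ha]
    exact ⟨fun h => by rw [hci (show Fin.castLE hsk b = Fin.castLE hsk a from h)],
      fun h => congrArg (Fin.castLE hsk) (hinj h)⟩
  · rw [ha2, hb2, ha]
    exact ⟨fun h => h.elim, fun h => hu ⟨a, h.symm⟩⟩

/-- Let `T` be a caterpillar. There is a constant `C` such that the Hasse diagram of every finite poset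
without an induced copy of `T` is colourable with `C` colours. -/
theorem result {W : Type v} [Finite W] (T : SimpleGraph W) (hT : IsCaterpillar T) :
    ∃ C : ℕ, ∀ (P : Type u) [Finite P] [PartialOrder P],
      IsEmpty (T ↪g SimpleGraph.hasse P) → (SimpleGraph.hasse P).Colorable C := by
  classical
  obtain ⟨s, sp, hinj, hsp, hl⟩ := hT
  rcases isEmpty_or_nonempty W with hW | ⟨⟨w0⟩⟩
  · refine ⟨0, ?_⟩
    intro P _ _ hfree
    exact (hfree.false ⟨⟨fun w => (IsEmpty.false w).elim, fun w => (IsEmpty.false w).elim⟩,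
      fun {w} => (IsEmpty.false w).elim⟩).elim
  · have ht : 1 ≤ Nat.card W := by
      have : Nonempty W := ⟨w0⟩
      exact Nat.card_pos
    obtain ⟨φ⟩ := exists_cat (le_refl s) hinj hsp hl
    have hs : 1 ≤ s := by
      by_contra hcon
      have h0 : s = 0 := by omega
      subst h0
      obtain ⟨a, _⟩ := hl w0 (by rintro ⟨a, _⟩; exact a.elim0)
      exact a.elim0
    obtain ⟨C, hC⟩ := main.{u} s (Nat.card W) hs ht
    refine ⟨C, ?_⟩
    intro P _ _ hfree
    have hG : ∀ x y : P, (SimpleGraph.hasse P).Adj x y ↔ x ⋖ y ∨ y ⋖ x := fun x y => Iff.rfl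
    have hcat : IsEmpty (cat s (Nat.card W) ↪g SimpleGraph.hasse P) :=
      ⟨fun ψ => hfree.false (φ.trans ψ)⟩
    have hout : ¬ UpComb (fun a b : P => a ⋖ b) s (Nat.card W) := fun hc =>
      not_nonempty_iff.2 hcat (embed_of_comb (ho_covBy P) ht _ hG hc)
    have hinn : ¬ UpComb (rev (fun a b : P => a ⋖ b)) s (Nat.card W) := fun hc =>
      not_nonempty_iff.2 hcat (embed_of_comb (ho_covBy P).flip ht _
        (fun x y => by rw [hG x y]; exact or_comm) hc)
    obtain ⟨f, hf, hf2⟩ := hC P (fun a b => a ⋖ b) (fun a b => a < b) (ho_covBy P) hout hinn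
    refine ⟨SimpleGraph.Coloring.mk (fun v => (⟨f v, hf v (Set.mem_univ v)⟩ : Fin _)) ?_⟩
    intro a b hab he
    have he' : f a = f b := congrArg Fin.val he
    rcases hab with hab | hab
    · exact hf2 a (Set.mem_univ a) b (Set.mem_univ b) hab he'
    · exact hf2 b (Set.mem_univ b) a (Set.mem_univ a) hab he'.symm

end Pool.Agent.Results.MP_b0c2b5_co.AllCaterpillars
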