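import Pool.Agent.Lib.MP_b0c2b5_co.R3.Main

/-!
All trees of radius at most three satisfy the Gyarfas-Sumner conjecture for Hasse diagrams.
-/

set_option autoImplicit false

namespace Pool.Agent.Results.MP_b0c2b5_co.RadiusThree

open Pool.Agent.Lib.MP_b0c2b5_co.LS Pool.Agent.Lib.MP_b0c2b5_co.R3

universe u v

/-- the covering relation and the order of a poset -/
lemma ho_poset (P : Type u) [PartialOrder P] : HO (fun x y : P => x ⋖ y) (fun x y : P => x < y) where
  irr x hx := lt_irrefl x hx
  trans x y z hxy hyz := lt_trans hxy hyz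
  arc x y hxy := hxy.lt
  sf x y z hxy hxz hzy := hxy.2 hxz hzy

lemma gr_hasse (P : Type u) [PartialOrder P] : Gr (fun x y : P => x ⋖ y) = SimpleGraph.hasse P := by
  ext a b
  change (SimpleGraph.fromRel (fun x y : P => x ⋖ y)).Adj a b ↔ _
  rw [SimpleGraph.fromRel_adj, SimpleGraph.hasse_adj]
  constructor
  · rintro ⟨_, h⟩
    exact h
  · intro h
    refine ⟨?_, h⟩
    rcases h with h | h
    · exact h.lt.ne
    · exact h.lt.ne'

/-- Let `T` be a tree with a vertex `c` such that every vertex is at distance at most 3 from `c` (radius at most three).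
There is a constant `C` such that the Hasse diagram of every finite poset without an induced copy of `T` is colourable
with `C` colours. -/
theorem result {W : Type v} [Finite W] (T : SimpleGraph W) (hT : T.IsTree) (hr : ∃ c, ∀ w, T.dist c w ≤ 3) :
    ∃ C : ℕ, ∀ (P : Type u) [Finite P] [PartialOrder P],
      IsEmpty (T ↪g SimpleGraph.hasse P) → (SimpleGraph.hasse P).Colorable C := by
  classical
  obtain ⟨c, hc⟩ := hr
  obtain ⟨t, ⟨e⟩⟩ := tree_emb T hT 3 c hc
  obtain ⟨C, hC⟩ := main t
  refine ⟨C, ?_⟩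
  intro P _ _ hP
  haveI : Fintype P := Fintype.ofFinite P
  have h1 : ¬ Nonempty (treeG 3 t ↪g Gr (fun x y : P => x ⋖ y)) := by
    rintro ⟨g⟩
    rw [gr_hasse] at g
    exact hP.false (e.trans g)
  obtain ⟨f, hf, hf2⟩ := hC P (fun x y : P => x ⋖ y) (fun x y : P => x < y) (ho_poset P) h1
  refine ⟨SimpleGraph.Coloring.mk (fun v => (⟨f v, hf v (Set.mem_univ v)⟩ : Fin C)) ?_⟩
  intro a b hab heq
  have h2 : f a = f b := congrArg Fin.val heq
  rcases (SimpleGraph.hasse_adj (a := a) (b := b)).1 hab with h3 | h3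
  · exact hf2 a (Set.mem_univ a) b (Set.mem_univ b) h3 h2
  · exact hf2 b (Set.mem_univ b) a (Set.mem_univ a) h3 h2.symm

end Pool.Agent.Results.MP_b0c2b5_co.RadiusThree
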