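import Pool.Agent.Lib.MP_b0c2b5_co.Glue

/-!
The Gyarfas-Sumner property for Hasse diagrams and all trees obtained from a path by attaching
arbitrarily many leaves to two of its vertices.
-/

namespace Pool.Agent.Results.MP_b0c2b5_co.TwoThickVertices

open Relation Pool.Agent.Lib.MP_b0c2b5_co

/-- The tree obtained from the path `0 - 1 - ... - (N-1)` by attaching `t` new leaves
`(0,0), ..., (0,t-1)` to the vertex `i` and `t` new leaves `(1,0), ..., (1,t-1)` to the
vertex `j`. -/
def thickTree (N t : ℕ) (i j : Fin N) : SimpleGraph (Fin N ⊕ (Fin 2 × Fin t)) where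
  Adj u v := match u, v with
    | .inl a, .inl b => (a : ℕ) + 1 = b ∨ (b : ℕ) + 1 = a
    | .inl a, .inr l => a = (if l.1 = 0 then i else j)
    | .inr l, .inl a => a = (if l.1 = 0 then i else j)
    | .inr _, .inr _ => False
  symm := ⟨by
    rintro (a | l) (b | m) h
    · exact h.symm
    · exact h
    · exact h
    · exact h⟩
  loopless := ⟨by
    rintro (a | l) h
    · simp at h
    · exact h⟩

section embed

variable {V : Type*} {r : V → V → Prop}

/-- the spine -/
def spine (a q d : ℕ → V) (i j k : ℕ) : V :=
  if k < i then a (i - k) else if k ≤ j then q (k - i) else d (k - j)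

lemma isPath_spine {a q d : ℕ → V} {i j N M : ℕ} (hij : i < j) (hN : N ≤ M) (hiN : i < N)
    (ha : IsPath (Function.swap r) a M) (hq : IsPath r q (j-i)) (hd : IsPath r d M)
    (haq : a 0 = q 0) (hdq : d 0 = q (j-i)) : IsPath r (spine a q d i j) (N-1) := by
  intro k hk
  unfold spine
  by_cases h1 : k + 1 < i
  · have h2 : k < i := by omega
    simp only [h1, h2, if_true]
    have := ha (i - (k+1)) (by omega)
    rw [show i - (k+1) + 1 = i - k by omega] at this
    exact this
  · by_cases h2 : k < i
    · have h3 : k + 1 = i := by omega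
      have h4 : k + 1 ≤ j := by omega
      simp only [h1, h2, h4, if_true, if_false]
      have := ha 0 (by omega)
      rw [show k + 1 - i = 0 by omega, show i - k = 0 + 1 by omega, ← haq]
      exact this
    · by_cases h3 : k + 1 ≤ j
      · have h4 : k ≤ j := by omega
        simp only [h1, h2, h3, h4, if_true, if_false]
        have := hq (k - i) (by omega)
        rw [show k + 1 - i = k - i + 1 by omega]
        exact this
      · by_cases h4 : k ≤ j
        · have h5 : k = j := by omega
          simp only [h1, h2, h3, h4, if_true, if_false]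
          have := hd 0 (by omega)
          rw [h5, show j + 1 - j = 0 + 1 by omega, ← hdq]
          exact this
        · simp only [h1, h2, h3, h4, if_false]
          have := hd (k - j) (by omega)
          rw [show k + 1 - j = k - j + 1 by omega]
          exact this

lemma spine_adj (h : HD r) {s : ℕ → V} {L : ℕ} (hs : IsPath r s L) {k k' : ℕ} (hk : k ≤ L)
    (hk' : k' ≤ L) : r (s k) (s k') ↔ k + 1 = k' := by
  constructor
  · intro hr
    rcases lt_trichotomy (k+1) k' with h1 | h1 | h1
    · exfalso
      exact h.sf (s k) (s k') (s (k+1)) hr (hs k (by omega)) (hs.transGen h1 hk')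
    · exact h1
    · exfalso
      have h2 : ReflTransGen r (s k') (s k) := hs.reflTransGen (by omega) hk
      exact h.acyc (s k) (TransGen.trans_left (TransGen.single hr) h2)
  · rintro rfl
    exact hs k (by omega)

lemma spine_inj (h : HD r) {s : ℕ → V} {L : ℕ} (hs : IsPath r s L) {k k' : ℕ} (hk : k ≤ L)
    (hk' : k' ≤ L) (he : s k = s k') : k = k' := by
  rcases lt_trichotomy k k' with h1 | h1 | h1
  · exfalso
    have := hs.transGen h1 hk'
    rw [he] at this
    exact h.acyc _ this
  · exact h1
  · exfalso
    have := hs.transGen h1 hk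
    rw [he] at this
    exact h.acyc _ this

/-- facts about a leaf attached from above to `s j`, not seen from the path above -/
lemma up_leaf (h : HD r) {s : ℕ → V} {L : ℕ} (hs : IsPath r s L) {j : ℕ} (hj : j ≤ L) {y : V}
    (hy : r (s j) y) (hne : j + 1 ≤ L → y ≠ s (j+1))
    (hfree : ∀ k, j < k → k ≤ L → ¬ r y (s k)) :
    (∀ k ≤ L, ¬ r y (s k)) ∧ (∀ k ≤ L, r (s k) y ↔ k = j) ∧ (∀ k ≤ L, s k ≠ y) := by
  refine ⟨?_, ?_, ?_⟩
  · intro k hk hr
    by_cases h1 : j < k
    · exact hfree k h1 hk hr
    · have h2 : ReflTransGen r (s k) (s j) := hs.reflTransGen (by omega) hj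
      exact h.acyc y (TransGen.trans_left (TransGen.single hr) (h2.tail hy))
  · intro k hk
    constructor
    · intro hr
      rcases lt_trichotomy k j with h1 | h1 | h1
      · exfalso
        exact h.sf (s k) y (s (k+1)) hr (hs k (by omega))
          (TransGen.tail' (hs.reflTransGen (by omega) hj) hy)
      · exact h1
      · exfalso
        exact h.sf (s j) y (s (j+1)) hy (hs j (by omega))
          (TransGen.tail' (hs.reflTransGen (by omega) hk) hr)
    · rintro rfl
      exact hy
  · intro k hk he
    rw [← he] at hy
    have := (spine_adj h hs hj hk).mp hy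
    subst this
    exact hne hk he.symm

/-- facts about a leaf attached from below to `s i`, not seen from the path below -/
lemma down_leaf (h : HD r) {s : ℕ → V} {L : ℕ} (hs : IsPath r s L) {i : ℕ} (hi : i ≤ L) {x : V}
    (hx : r x (s i)) (hne : ∀ k, k + 1 = i → x ≠ s k)
    (hfree : ∀ k, k < i → ¬ r (s k) x) :
    (∀ k ≤ L, ¬ r (s k) x) ∧ (∀ k ≤ L, r x (s k) ↔ k = i) ∧ (∀ k ≤ L, s k ≠ x) := by
  refine ⟨?_, ?_, ?_⟩
  · intro k hk hr
    by_cases h1 : k < i
    · exact hfree k h1 hr
    · have h2 : ReflTransGen r (s i) (s k) := hs.reflTransGen (by omega) hk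
      exact h.acyc x (TransGen.tail' ((ReflTransGen.single hx).trans h2) hr)
  · intro k hk
    constructor
    · intro hr
      rcases lt_trichotomy k i with h1 | h1 | h1
      · exfalso
        exact h.sf x (s i) (s k) hx hr (hs.transGen h1 hi)
      · exact h1
      · exfalso
        exact h.sf x (s k) (s i) hr hx (hs.transGen h1 hk)
    · rintro rfl
      exact hx
  · intro k hk he
    rw [← he] at hx
    have := (spine_adj h hs hk hi).mp hx
    exact hne k this he.symm

end embed

/-- the explicit bound on the chromatic number -/
def bound (N t : ℕ) : ℕ := 2 * ((3*N+7) * (16*t^2+10*t+1)) + N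

theorem result : ∀ (N t : ℕ) (i j : Fin N), i < j →
    ∀ (α : Type) [Fintype α] [PartialOrder α],
      IsEmpty (thickTree N t i j ↪g SimpleGraph.hasse α) →
      (SimpleGraph.hasse α).Colorable (bound N t) := by
  classical
  intro N t i j hij α _ _ hemp
  have hij' : (i:ℕ) < (j:ℕ) := hij
  set r : α → α → Prop := fun a b => a ⋖ b with hr
  have hlt : ∀ a b, TransGen r a b → a < b := by
    intro a b hab
    induction hab with
    | single h => exact h.lt
    | tail _ h ih => exact ih.trans h.lt
  have hHD : HD r := by
    refine ⟨fun x hx => lt_irrefl _ (hlt x x hx), ?_⟩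
    intro x y z hxy hxz hzy
    exact hxy.2 hxz.lt (hlt _ _ hzy)
  rcases glue hHD (M := N+2) (t := t) (l := (j:ℕ) - i) (by omega) with hcol | hpath
  · obtain ⟨f, hf⟩ := hcol.mono (d := bound N t) (by
      unfold cA bound
      have := j.2
      have h1 : 3 * (N+2) + 1 = 3*N+7 := by ring
      rw [h1]
      omega)
    refine ⟨SimpleGraph.Coloring.mk f ?_⟩
    intro a b hab
    rw [SimpleGraph.hasse_adj] at hab
    rcases hab with hab | hab
    · exact hf a b hab
    · exact (hf b a hab).symm
  · exfalso
    obtain ⟨q, hq, ⟨a, ha0, ha, A, hA, hAA⟩, ⟨d, hd0, hd, B, hB, hBB⟩⟩ := hpath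
    obtain ⟨L, hL⟩ : ∃ L, L = N - 1 := ⟨_, rfl⟩
    set s : ℕ → α := spine a q d i j with hs
    have hi2 := i.2
    have hj2 := j.2
    have hsp : IsPath r s L := by
      rw [hL]
      exact isPath_spine hij' (by omega) i.2 ha hq hd ha0 hd0
    have hsi : s i = q 0 := by
      simp [hs, spine, hij'.le]
    have hsj : s j = q (j - i) := by
      simp [hs, spine, not_lt.mpr hij'.le]
    let eA : Fin t ≃ A := (Finset.equivFinOfCardEq hA).symm
    let eB : Fin t ≃ B := (Finset.equivFinOfCardEq hB).symm
    have hdown : ∀ m : Fin t, (∀ k ≤ L, ¬ r (s k) (eA m)) ∧ (∀ k ≤ L, r (eA m) (s k) ↔ k = i) ∧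
        (∀ k ≤ L, s k ≠ eA m) := by
      intro m
      obtain ⟨h1, h2, h3⟩ := hAA (eA m) (eA m).2
      apply down_leaf hHD hsp (by omega)
      · rw [hsi]; exact h1
      · intro k hk
        have h4 : s k = a 1 := by
          have h5 : k < i := by omega
          simp only [hs, spine, h5, if_true]
          rw [show (i:ℕ) - k = 1 by omega]
        rw [h4]; exact h2
      · intro k hk
        have h4 : s k = a (i - k) := by
          simp only [hs, spine, hk, if_true]
        rw [h4]
        exact h3 (i - k) (by omega) (by omega)
    have hup : ∀ m : Fin t, (∀ k ≤ L, ¬ r (eB m) (s k)) ∧ (∀ k ≤ L, r (s k) (eB m) ↔ k = j) ∧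
        (∀ k ≤ L, s k ≠ eB m) := by
      intro m
      obtain ⟨h1, h2, h3⟩ := hBB (eB m) (eB m).2
      apply up_leaf hHD hsp (by omega)
      · rw [hsj]; exact h1
      · intro hk
        have h4 : s (j+1) = d 1 := by
          have h5 : ¬ ((j:ℕ) + 1 < i) := by omega
          have h6 : ¬ ((j:ℕ) + 1 ≤ j) := by omega
          simp only [hs, spine, h5, h6, if_false]
          rw [show (j:ℕ) + 1 - j = 1 by omega]
        rw [h4]; exact h2
      · intro k hk hkL
        have h4 : s k = d (k - j) := by
          have h5 : ¬ (k < i) := by omega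
          have h6 : ¬ (k ≤ j) := by omega
          simp only [hs, spine, h5, h6, if_false]
        rw [h4]
        exact h3 (k - j) (by omega) (by omega)
    have hAi : ∀ m : Fin t, r (eA m) (s i) := fun m => ((hdown m).2.1 i (by omega)).mpr rfl
    have hBj : ∀ m : Fin t, r (s j) (eB m) := fun m => ((hup m).2.1 j (by omega)).mpr rfl
    have hsij : TransGen r (s i) (s j) := hsp.transGen hij' (by omega)
    have hAA' : ∀ m m' : Fin t, ¬ r (eA m) (eA m') := by
      intro m m' hr'
      exact hHD.sf (eA m) (s i) (eA m') (hAi m) hr' (TransGen.single (hAi m'))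
    have hBB' : ∀ m m' : Fin t, ¬ r (eB m) (eB m') := by
      intro m m' hr'
      exact hHD.sf (s j) (eB m') (eB m) (hBj m') (hBj m) (TransGen.single hr')
    have hAB : ∀ m m' : Fin t, ¬ r (eA m) (eB m') := by
      intro m m' hr'
      exact hHD.sf (eA m) (eB m') (s i) hr' (hAi m) (hsij.tail (hBj m'))
    have hAB2 : ∀ m m' : Fin t, TransGen r (eA m) (eB m') := by
      intro m m'
      exact (TransGen.head (hAi m) hsij).tail (hBj m')
    have hBA : ∀ m m' : Fin t, ¬ r (eB m') (eA m) := by
      intro m m' hr'
      exact hHD.acyc _ ((hAB2 m m').tail hr')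
    have hABne : ∀ m m' : Fin t, (eA m : α) ≠ eB m' := by
      intro m m' he
      have := hAB2 m m'
      rw [he] at this
      exact hHD.acyc _ this
    let φ : Fin N ⊕ (Fin 2 × Fin t) → α := fun u => match u with
      | .inl k => s k
      | .inr l => if l.1 = 0 then eA l.2 else eB l.2
    have hφ : Function.Injective φ := by
      rintro (k | ⟨l, m⟩) (k' | ⟨l', m'⟩) he
      · have := spine_inj hHD hsp (k := k) (k' := k') (by omega) (by omega) he
        rw [Fin.ext this]
      · exfalso
        simp only [φ] at he
        split_ifs at he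
        · exact (hdown m').2.2 k (by omega) he
        · exact (hup m').2.2 k (by omega) he
      · exfalso
        simp only [φ] at he
        split_ifs at he
        · exact (hdown m).2.2 k' (by omega) he.symm
        · exact (hup m).2.2 k' (by omega) he.symm
      · simp only [φ] at he
        split_ifs at he with h1 h2 h2
        · subst h1 h2
          rw [eA.injective (Subtype.ext he)]
        · exact absurd he (hABne _ _)
        · exact absurd he.symm (hABne _ _)
        · have h3 : l = l' := by omega
          subst h3
          rw [eB.injective (Subtype.ext he)]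
    refine hemp.false ⟨⟨φ, hφ⟩, ?_⟩
    intro u v
    simp only [Function.Embedding.coeFn_mk, SimpleGraph.hasse_adj]
    rcases u with k | ⟨l, m⟩ <;> rcases v with k' | ⟨l', m'⟩
    · simp only [φ, thickTree]
      have h1 := spine_adj hHD hsp (k := k) (k' := k') (by omega) (by omega)
      have h2 := spine_adj hHD hsp (k := k') (k' := k) (by omega) (by omega)
      simp only [hr] at h1 h2
      rw [h1, h2]
    · simp only [φ, thickTree]
      by_cases hl : l' = 0
      · simp only [hl, if_true]
        have h1 := (hdown m').1 k (by omega)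
        have h2 := (hdown m').2.1 k (by omega)
        simp only [hr] at h1 h2
        rw [h2, Fin.ext_iff]
        simp [h1]
      · simp only [hl, if_false]
        have h1 := (hup m').1 k (by omega)
        have h2 := (hup m').2.1 k (by omega)
        simp only [hr] at h1 h2
        rw [h2, Fin.ext_iff]
        simp [h1]
    · simp only [φ, thickTree]
      by_cases hl : l = 0
      · simp only [hl, if_true]
        have h1 := (hdown m).1 k' (by omega)
        have h2 := (hdown m).2.1 k' (by omega)
        simp only [hr] at h1 h2
        rw [h2, Fin.ext_iff]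
        simp [h1]
      · simp only [hl, if_false]
        have h1 := (hup m).1 k' (by omega)
        have h2 := (hup m).2.1 k' (by omega)
        simp only [hr] at h1 h2
        rw [h2, Fin.ext_iff]
        simp [h1]
    · simp only [φ, thickTree, iff_false]
      have g1 := hAA' m m'
      have g2 := hAA' m' m
      have g3 := hBB' m m'
      have g4 := hBB' m' m
      have g5 := hAB m m'
      have g6 := hAB m' m
      have g7 := hBA m m'
      have g8 := hBA m' m
      simp only [hr] at g1 g2 g3 g4 g5 g6 g7 g8
      split_ifs
      · rintro (h1 | h1)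
        · exact g1 h1
        · exact g2 h1
      · rintro (h1 | h1)
        · exact g5 h1
        · exact g7 h1
      · rintro (h1 | h1)
        · exact g8 h1
        · exact g6 h1
      · rintro (h1 | h1)
        · exact g3 h1
        · exact g4 h1

end Pool.Agent.Results.MP_b0c2b5_co.TwoThickVertices
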